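import Pool.Agent.H28.MZ.Targets
import Pool.Agent.H33.LI.PB
import Pool.Agent.H15.LI.LF

/-!
# Module UG: growth and holomorphy of the auxiliary function
-/

set_option autoImplicit false

open Complex Filter Topology

namespace Pool.Agent.H63.PZ

open Pool.Agent.H23.GLH (PrimChar)
open Pool.Agent.H28.MZ

theorem poly : Pool.Agent.H74.LI.T_poly := Pool.Agent.H33.LI.pb Pool.Agent.H15.LI.lf

lemma diffL (π : PrimChar) {s : ℂ} (hs : 0 < s.im) : DifferentiableAt ℂ π.L s := by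
  have h1 : s ≠ 1 := by
    rintro rfl
    simp at hs
  haveI := π.q_ne
  exact DirichletCharacter.differentiableAt_LFunction π.χ s (Or.inl h1)

lemma analL (π : PrimChar) {s : ℂ} (hs : 0 < s.im) : AnalyticAt ℂ π.L s := by
  have ho : IsOpen {s : ℂ | 0 < s.im} := isOpen_lt continuous_const Complex.continuous_im
  have hd : DifferentiableOn ℂ π.L {s : ℂ | 0 < s.im} := fun z hz =>
    (diffL π hz).differentiableWithinAt
  exact hd.analyticAt (ho.mem_nhds hs)

lemma diffBf (π : PrimChar) (b : ℕ → ℝ) (Y : ℕ) : Differentiable ℂ (Bf π b Y) := by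
  unfold Bf
  refine Differentiable.fun_sum fun h hh => ?_
  have h1 : (h : ℂ) ≠ 0 := by
    have := (Finset.mem_Icc.1 hh).1
    exact_mod_cast (by omega : h ≠ 0)
  exact (differentiable_neg.const_cpow (Or.inl h1)).const_mul _

lemma wl_im (r τ : ℝ) (s : ℂ) : (wl r τ s).im = r * s.im + τ := by
  simp [wl]

lemma wl_re (r τ : ℝ) (s : ℂ) : (wl r τ s).re = 1 / 2 + r * (s.re - 1 / 2) := by
  simp [wl]

lemma hasDerivAt_wl (r τ : ℝ) (s : ℂ) : HasDerivAt (wl r τ) (r : ℂ) s := by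
  have h1 : HasDerivAt (fun s : ℂ => 1 / 2 + (r : ℂ) * (s - 1 / 2) + τ * I) ((r : ℂ) * 1) s :=
    ((((hasDerivAt_id s).sub_const (1 / 2 : ℂ)).const_mul (r : ℂ)).const_add (1 / 2)).add_const _
  rw [mul_one] at h1
  exact h1

lemma differentiable_wl (r τ : ℝ) : Differentiable ℂ (wl r τ) := fun s =>
  (hasDerivAt_wl r τ s).differentiableAt

lemma analyticAt_wl (r τ : ℝ) (s : ℂ) : AnalyticAt ℂ (wl r τ) s :=
  (differentiable_wl r τ).analyticAt s

lemma order_comp_wl (f : ℂ → ℂ) {r : ℝ} (hr : 0 < r) (τ : ℝ) (s : ℂ) :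
    analyticOrderAt (fun x => f (wl r τ x)) s = analyticOrderAt f (wl r τ s) := by
  refine analyticOrderAt_comp_of_deriv_ne_zero (f := f) (analyticAt_wl r τ s) ?_
  rw [(hasDerivAt_wl r τ s).deriv]
  exact_mod_cast hr.ne'

lemma norm_co (π : PrimChar) (n : ℕ) : ‖co π n‖ ≤ 1 := by
  unfold co
  split_ifs
  · simp
  · haveI := π.q_ne
    exact DirichletCharacter.norm_le_one _ _

/-- crude bound for the Dirichlet polynomial -/
lemma norm_Bf (π : PrimChar) (b : ℕ → ℝ) (Y : ℕ) (hb : ∀ h, |b h| ≤ 1) {T : ℝ} (hT : 1 ≤ T)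
    (hY : (Y : ℝ) ≤ T) (m : ℕ) {w : ℂ} (hw : -(m : ℝ) ≤ w.re) : ‖Bf π b Y w‖ ≤ T ^ (m + 1) := by
  have hT0 : 0 ≤ T := by linarith
  calc ‖Bf π b Y w‖ ≤ ∑ h ∈ Finset.Icc 1 Y, T ^ m := by
        refine norm_sum_le_of_le _ fun h hh => ?_
        obtain ⟨h1, h2⟩ := Finset.mem_Icc.1 hh
        have h3 : (1 : ℝ) ≤ h := by exact_mod_cast h1
        have h4 : (h : ℝ) ≤ T := le_trans (by exact_mod_cast h2) hY
        rw [norm_mul, norm_mul, Complex.norm_natCast_cpow_of_pos (by omega), Complex.norm_real,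
          Real.norm_eq_abs]
        have h5 : (h : ℝ) ^ (-w).re ≤ T ^ m := by
          calc (h : ℝ) ^ (-w).re ≤ (h : ℝ) ^ (m : ℝ) :=
                Real.rpow_le_rpow_of_exponent_le h3 (by simp only [Complex.neg_re]; linarith)
            _ = (h : ℝ) ^ m := Real.rpow_natCast _ _
            _ ≤ T ^ m := by gcongr
        calc |b h| * ‖co π h‖ * (h : ℝ) ^ (-w).re ≤ 1 * 1 * T ^ m := by
              gcongr
              · exact hb h
              · exact norm_co π h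
          _ = T ^ m := by ring
    _ = Y * T ^ m := by simp
    _ ≤ T * T ^ m := by gcongr
    _ = T ^ (m + 1) := by ring

theorem ug : T_UG := by
  intro χ ψ r hr1 hr2
  obtain ⟨C1, hC1, hp1⟩ := poly χ 3
  obtain ⟨C2, hC2, hp2⟩ := poly ψ 3
  refine ⟨2 * C1 + 2 * C2 + 5, 6 + 2 * C1 + 2 * C2, by positivity, ?_⟩
  intro T P hT hPr hτ hη0 hη1 hc0 hc1 hM1 hM2 hY1 hY2
  have hT6 : 6 ≤ T := by linarith
  have hT1 : 1 ≤ T := by linarith
  have hT0 : 0 < T := by linarith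
  obtain ⟨hτ1, hτ2⟩ := abs_le.1 hτ
  have hr0 : 0 < P.r := by rw [hPr]; linarith
  have him : ∀ s : ℂ, T / 2 < s.im → 0 < (wl P.r P.τ s).im := by
    intro s hs
    rw [wl_im, hPr]
    nlinarith
  have hd1 : ∀ s : ℂ, T / 2 < s.im → AnalyticAt ℂ (U₁ χ P) s := by
    intro s hs
    unfold U₁
    exact (analL χ (by linarith)).mul
      (((diffBf χ P.b₁ P.Y₁).comp (differentiable_id.add_const (2 * (P.η : ℂ)))).analyticAt s)
  have hL2 : ∀ s : ℂ, T / 2 < s.im → AnalyticAt ℂ (fun s => ψ.L (wl P.r P.τ s)) s := by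
    intro s hs
    exact (analL ψ (him s hs)).comp (analyticAt_wl _ _ s)
  have hB2 : ∀ s : ℂ, AnalyticAt ℂ
      (fun s => Bf ψ P.b₂ P.Y₂ (wl P.r P.τ s + 2 * P.r * P.η)) s := by
    intro s
    exact ((diffBf ψ P.b₂ P.Y₂).comp
      ((differentiable_wl P.r P.τ).add_const (2 * (P.r : ℂ) * P.η))).analyticAt s
  have hB1 : ∀ s : ℂ, AnalyticAt ℂ (fun s => Bf χ P.b₁ P.Y₁ (s + 2 * P.η)) s := by
    intro s
    exact ((diffBf χ P.b₁ P.Y₁).comp (differentiable_id.add_const (2 * (P.η : ℂ)))).analyticAt s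
  have hd2 : ∀ s : ℂ, T / 2 < s.im → AnalyticAt ℂ (U₂ ψ P) s := by
    intro s hs
    unfold U₂
    exact (hL2 s hs).mul (hB2 s)
  have hc1' : ‖(1 - P.c : ℂ)‖ = 1 - P.c := by
    rw [← Complex.ofReal_one, ← Complex.ofReal_sub, Complex.norm_real, Real.norm_of_nonneg]
    linarith
  have hc0' : ‖(P.c : ℂ)‖ = P.c := by
    rw [Complex.norm_real, Real.norm_of_nonneg hc0]
  refine ⟨?_, ?_, ?_⟩
  · intro s hs
    unfold U
    exact (((hd1 s hs).differentiableAt).const_mul _).add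
      (((hd2 s hs).differentiableAt).const_mul _)
  · intro s hre hi1 hi2
    have hsi : 0 < s.im := by linarith
    -- first function
    have e1 : ‖χ.L s‖ ≤ C1 * T ^ (2 * C1) := by
      have h1 := hp1 s (by linarith) (by rw [abs_of_pos hsi]; linarith)
      rw [abs_of_pos hsi] at h1
      refine h1.trans ?_
      gcongr
      calc (1 + s.im) ^ C1 ≤ (T ^ (2 : ℝ)) ^ C1 := by
            gcongr
            rw [Real.rpow_two]
            nlinarith
        _ = T ^ (2 * C1) := by rw [← Real.rpow_mul hT0.le]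
    have e2 : ‖Bf χ P.b₁ P.Y₁ (s + 2 * P.η)‖ ≤ T ^ (1 + 1) := by
      refine norm_Bf χ P.b₁ P.Y₁ hM1.le hT1 hY1 1 ?_
      have : (s + 2 * (P.η : ℂ)).re = s.re + 2 * P.η := by simp
      rw [this]
      push_cast
      linarith
    have e3 : ‖U₁ χ P s‖ ≤ (1 / 2) * T ^ (2 * C1 + 2 * C2 + 5) := by
      unfold U₁
      rw [norm_mul]
      calc ‖χ.L s‖ * ‖Bf χ P.b₁ P.Y₁ (s + 2 * P.η)‖ ≤ (C1 * T ^ (2 * C1)) * T ^ (1 + 1) := by
            gcongr
        _ ≤ ((T / 2) * T ^ (2 * C1)) * T ^ (1 + 1) := by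
            gcongr
            linarith
        _ = (1 / 2) * (T ^ (2 * C1) * T ^ (3 : ℕ)) := by ring
        _ = (1 / 2) * T ^ (2 * C1 + 3) := by
            rw [← Real.rpow_natCast T 3, ← Real.rpow_add hT0]
            norm_num
        _ ≤ (1 / 2) * T ^ (2 * C1 + 2 * C2 + 5) := by
            exact mul_le_mul_of_nonneg_left
              (Real.rpow_le_rpow_of_exponent_le hT1 (by linarith)) (by norm_num)
    -- second function
    have hwi : (wl P.r P.τ s).im = r * s.im + P.τ := by rw [wl_im, hPr]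
    have hwi1 : 3 * T / 4 ≤ (wl P.r P.τ s).im := by rw [hwi]; nlinarith
    have hwi2 : (wl P.r P.τ s).im ≤ 5 * T := by rw [hwi]; nlinarith
    have hwr : -(5 / 2) ≤ (wl P.r P.τ s).re := by
      rw [wl_re, hPr]
      nlinarith
    have hw0 : 0 < (wl P.r P.τ s).im := by linarith
    have f1 : ‖ψ.L (wl P.r P.τ s)‖ ≤ C2 * T ^ (2 * C2) := by
      have h1 := hp2 (wl P.r P.τ s) (by linarith) (by rw [abs_of_pos hw0]; linarith)
      rw [abs_of_pos hw0] at h1
      refine h1.trans ?_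
      gcongr
      calc (1 + (wl P.r P.τ s).im) ^ C2 ≤ (T ^ (2 : ℝ)) ^ C2 := by
            gcongr
            rw [Real.rpow_two]
            nlinarith
        _ = T ^ (2 * C2) := by rw [← Real.rpow_mul hT0.le]
    have f2 : ‖Bf ψ P.b₂ P.Y₂ (wl P.r P.τ s + 2 * P.r * P.η)‖ ≤ T ^ (3 + 1) := by
      refine norm_Bf ψ P.b₂ P.Y₂ hM2.le hT1 hY2 3 ?_
      have : (wl P.r P.τ s + 2 * (P.r : ℂ) * (P.η : ℂ)).re = (wl P.r P.τ s).re + 2 * P.r * P.η := by
        simp
      rw [this]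
      have : 0 ≤ P.r * P.η := by positivity
      push_cast
      linarith
    have f3 : ‖U₂ ψ P s‖ ≤ (1 / 2) * T ^ (2 * C1 + 2 * C2 + 5) := by
      unfold U₂
      rw [norm_mul]
      calc ‖ψ.L (wl P.r P.τ s)‖ * ‖Bf ψ P.b₂ P.Y₂ (wl P.r P.τ s + 2 * P.r * P.η)‖
          ≤ (C2 * T ^ (2 * C2)) * T ^ (3 + 1) := by gcongr
        _ ≤ ((T / 2) * T ^ (2 * C2)) * T ^ (3 + 1) := by
            gcongr
            linarith
        _ = (1 / 2) * (T ^ (2 * C2) * T ^ (5 : ℕ)) := by ring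
        _ = (1 / 2) * T ^ (2 * C2 + 5) := by
            rw [← Real.rpow_natCast T 5, ← Real.rpow_add hT0]
            norm_num
        _ ≤ (1 / 2) * T ^ (2 * C1 + 2 * C2 + 5) := by
            exact mul_le_mul_of_nonneg_left
              (Real.rpow_le_rpow_of_exponent_le hT1 (by linarith)) (by norm_num)
    unfold U
    calc ‖(1 - (P.c : ℂ)) * U₁ χ P s + P.c * U₂ ψ P s‖
        ≤ (1 - P.c) * ‖U₁ χ P s‖ + P.c * ‖U₂ ψ P s‖ := by
          refine (norm_add_le _ _).trans ?_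
          rw [norm_mul, norm_mul, hc1', hc0']
      _ ≤ (1 - P.c) * ((1 / 2) * T ^ (2 * C1 + 2 * C2 + 5)) +
          P.c * ((1 / 2) * T ^ (2 * C1 + 2 * C2 + 5)) := by
          gcongr <;> linarith
      _ = (1 / 2) * T ^ (2 * C1 + 2 * C2 + 5) := by ring
      _ ≤ T ^ (2 * C1 + 2 * C2 + 5) := by
          have : 0 < T ^ (2 * C1 + 2 * C2 + 5) := Real.rpow_pos_of_pos hT0 _
          linarith
  · intro s hs
    have hU : U χ ψ P = (fun s => (1 - (P.c : ℂ)) * U₁ χ P s) + fun s => (P.c : ℂ) * U₂ ψ P s := by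
      funext s
      rfl
    rw [hU]
    refine le_trans (min_le_min ?_ ?_) le_analyticOrderAt_add
    · have h1 : (fun s => (1 - (P.c : ℂ)) * U₁ χ P s) =
          (fun s => (1 - (P.c : ℂ)) * Bf χ P.b₁ P.Y₁ (s + 2 * P.η)) * χ.L := by
        funext s
        simp only [U₁, Pi.mul_apply]
        ring
      have h2 : AnalyticAt ℂ (fun s => (1 - (P.c : ℂ)) * Bf χ P.b₁ P.Y₁ (s + 2 * P.η)) s :=
        analyticAt_const.mul (hB1 s)
      rw [h1, analyticOrderAt_mul h2 (analL χ (by linarith))]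
      exact le_add_self
    · have h1 : (fun s => (P.c : ℂ) * U₂ ψ P s) =
          (fun s => (P.c : ℂ) * Bf ψ P.b₂ P.Y₂ (wl P.r P.τ s + 2 * P.r * P.η)) *
            fun s => ψ.L (wl P.r P.τ s) := by
        funext s
        simp only [U₂, Pi.mul_apply]
        ring
      have h2 : AnalyticAt ℂ
          (fun s => (P.c : ℂ) * Bf ψ P.b₂ P.Y₂ (wl P.r P.τ s + 2 * P.r * P.η)) s :=
        analyticAt_const.mul (hB2 s)
      rw [h1, analyticOrderAt_mul h2 (hL2 s hs), order_comp_wl ψ.L hr0 P.τ s]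
      exact le_add_self

end Pool.Agent.H63.PZ
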