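import Pool.Agent.H28.MZ.Targets
import Pool.Agent.H19.DL.YA
import Pool.Agent.H33.LI.PB

/-!
# Module TH: Stirling's formula for the product of the two factors
-/

set_option autoImplicit false

open Complex Filter Topology Set

namespace Pool.Agent.H63.PZ.TH

open Pool.Agent.H28.MZ

/-- the inverse factor of the functional equation -/
noncomputable def yk (κ : ℝ) (w : ℂ) : ℂ := Gammaℂ w * Complex.cos (Real.pi * (w - κ) / 2)

lemma Rf_eq (κ : ℝ) (A : ℂ) (t : ℝ) : Rf κ A t = yk κ (A + t * I) * yk κ (A - t * I) := rfl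

lemma gamC_conj (w : ℂ) : Gammaℂ ((starRingEnd ℂ) w) = (starRingEnd ℂ) (Gammaℂ w) := by
  rw [Gammaℂ_def, Gammaℂ_def, map_mul, map_mul, ← Complex.Gamma_conj]
  congr 1
  have h2 : (2 * Real.pi : ℂ) ^ (-(starRingEnd ℂ) w) =
      (starRingEnd ℂ) ((2 * Real.pi : ℂ) ^ (-w)) := by
    have h : ((2 * Real.pi : ℂ)) = ((2 * Real.pi : ℝ) : ℂ) := by push_cast; ring
    have h3 := Complex.cpow_conj ((2 * Real.pi : ℝ) : ℂ) (-w) (by
      rw [Complex.arg_ofReal_of_nonneg (by positivity)]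
      exact Real.pi_pos.ne)
    rw [Complex.conj_ofReal, map_neg] at h3
    rw [h, h3]
  rw [h2]
  simp [map_ofNat]

lemma yk_conj (κ : ℝ) (w : ℂ) : yk κ ((starRingEnd ℂ) w) = (starRingEnd ℂ) (yk κ w) := by
  unfold yk
  rw [map_mul, gamC_conj, ← Complex.cos_conj]
  congr 2
  simp [map_ofNat]

lemma norm_cos_le (z : ℂ) : ‖Complex.cos z‖ ≤ Real.exp |z.im| := by
  have h1 : ‖cexp (z * I)‖ = Real.exp (-z.im) := by
    rw [Complex.norm_exp]; congr 1; simp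
  have h2 : ‖cexp (-z * I)‖ = Real.exp z.im := by
    rw [Complex.norm_exp]; congr 1; simp
  have hcos : Complex.cos z = (cexp (z * I) + cexp (-z * I)) / 2 := rfl
  rw [hcos, norm_div]
  have h4 : ‖(2 : ℂ)‖ = 2 := by simp
  rw [h4]
  have h5 := norm_add_le (cexp (z * I)) (cexp (-z * I))
  rw [h1, h2] at h5
  have h6 : Real.exp (-z.im) ≤ Real.exp |z.im| := Real.exp_le_exp.2 (neg_le_abs _)
  have h7 : Real.exp z.im ≤ Real.exp |z.im| := Real.exp_le_exp.2 (le_abs_self _)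
  linarith

lemma yk_bound : ∃ K : ℝ, 1 ≤ K ∧ ∀ κ x v : ℝ, 1 / 2 ≤ x → x ≤ 3 / 2 →
    ‖yk κ (x + v * I)‖ ≤ K * (1 + |v|) := by
  obtain ⟨K, hK, hb⟩ := Pool.Agent.H33.LI.gamma_bound 0
  refine ⟨2 * K + 1, by linarith, fun κ x v hx1 hx2 => ?_⟩
  have h1 := hb x v hx1 (by simpa using hx2)
  rw [zero_add, pow_one] at h1
  have hpi : 1 ≤ 2 * Real.pi := by linarith [Real.pi_gt_three]
  have h2 : ‖Gammaℂ (x + v * I)‖ ≤ 2 * (K * (1 + |v|) * Real.exp (-(Real.pi * |v| / 2))) := by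
    rw [Gammaℂ_def, norm_mul, norm_mul]
    have h3 : ‖((2 : ℂ) * Real.pi) ^ (-(x + v * I : ℂ))‖ ≤ 1 := by
      rw [show ((2 : ℂ) * Real.pi) = ((2 * Real.pi : ℝ) : ℂ) by push_cast; ring,
        Complex.norm_cpow_eq_rpow_re_of_pos (by positivity)]
      refine Real.rpow_le_one_of_one_le_of_nonpos hpi ?_
      simp
      linarith
    have h4 : ‖(2 : ℂ)‖ = 2 := by simp
    rw [h4]
    calc 2 * ‖((2 : ℂ) * Real.pi) ^ (-(x + v * I : ℂ))‖ * ‖Gamma (x + v * I)‖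
        ≤ 2 * 1 * (K * (1 + |v|) * Real.exp (-(Real.pi * |v| / 2))) := by gcongr
      _ = _ := by ring
  have h3 : ‖Complex.cos (Real.pi * ((x + v * I : ℂ) - κ) / 2)‖ ≤ Real.exp (Real.pi * |v| / 2) := by
    refine (norm_cos_le _).trans (le_of_eq ?_)
    congr 1
    have : (Real.pi * ((x + v * I : ℂ) - κ) / 2 : ℂ) =
        ((Real.pi * (x - κ) / 2 : ℝ) : ℂ) + ((Real.pi * v / 2 : ℝ) : ℂ) * I := by
      push_cast; ring
    rw [this]
    simp only [add_im, ofReal_im, mul_im, ofReal_re, I_re, I_im, mul_zero, mul_one, zero_add,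
      add_zero]
    rw [abs_div, abs_mul, abs_of_pos Real.pi_pos, abs_of_pos (by norm_num : (0 : ℝ) < 2)]
  have hE : Real.exp (-(Real.pi * |v| / 2)) * Real.exp (Real.pi * |v| / 2) = 1 := by
    rw [← Real.exp_add]; simp
  unfold yk
  rw [norm_mul]
  calc ‖Gammaℂ (x + v * I)‖ * ‖Complex.cos (Real.pi * ((x + v * I : ℂ) - κ) / 2)‖
      ≤ (2 * (K * (1 + |v|) * Real.exp (-(Real.pi * |v| / 2)))) * Real.exp (Real.pi * |v| / 2) := by
        gcongr
    _ = 2 * (K * (1 + |v|)) * (Real.exp (-(Real.pi * |v| / 2)) * Real.exp (Real.pi * |v| / 2)) := by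
        ring
    _ = 2 * K * (1 + |v|) := by rw [hE]; ring
    _ ≤ (2 * K + 1) * (1 + |v|) := by
        have := abs_nonneg v
        nlinarith

lemma yk_shift (κ : ℝ) {w : ℂ} (hw : w ≠ 0) :
    yk κ (w + 1) = -(w / (2 * Real.pi)) * yk (κ + 1) w := by
  unfold yk
  rw [Gammaℂ_add_one hw]
  have h1 : (Real.pi * (w + 1 - κ) / 2 : ℂ) = Real.pi * (w - ((κ + 1 : ℝ) : ℂ)) / 2 + Real.pi := by
    push_cast; ring
  rw [h1, Complex.cos_add_pi]
  ring

lemma norm_exp_sub (a b : ℝ) : ‖cexp ((a : ℂ) * I) - cexp ((b : ℂ) * I)‖ ≤ |a - b| :=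
  Pool.Agent.H19.DL.norm_ei_sub a b

lemma norm_expI (a : ℝ) : ‖cexp ((a : ℂ) * I)‖ = 1 := Complex.norm_exp_ofReal_mul_I a

/-- the phase -/
lemma phase {t Y : ℝ} (ht : 2 + 2 * |Y| ≤ t) :
    |(((t + Y) * Real.log ((t + Y) / (2 * Real.pi)) - (t + Y)) -
      ((t - Y) * Real.log ((t - Y) / (2 * Real.pi)) - (t - Y))) -
      2 * Y * Real.log (t / (2 * Real.pi))| ≤ 4 * (1 + Y ^ 2) / t := by
  have hY := abs_nonneg Y
  have hY1 := neg_abs_le Y
  have hY2 := le_abs_self Y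
  have ht0 : 0 < t := by linarith
  have h2 : (0 : ℝ) < 2 * Real.pi := by positivity
  have hp : 0 < t + Y := by linarith
  have hm : 0 < t - Y := by linarith
  have e : (((t + Y) * Real.log ((t + Y) / (2 * Real.pi)) - (t + Y)) -
      ((t - Y) * Real.log ((t - Y) / (2 * Real.pi)) - (t - Y))) -
      2 * Y * Real.log (t / (2 * Real.pi)) =
      ((t + Y) * Real.log ((t + Y) / t) - Y) - ((t - Y) * Real.log ((t - Y) / t) + Y) := by
    rw [Real.log_div hp.ne' h2.ne', Real.log_div hm.ne' h2.ne', Real.log_div ht0.ne' h2.ne',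
      Real.log_div hp.ne' ht0.ne', Real.log_div hm.ne' ht0.ne']
    ring
  rw [e]
  have key : ∀ Z : ℝ, 0 < t + Z → 0 ≤ (t + Z) * Real.log ((t + Z) / t) - Z ∧
      (t + Z) * Real.log ((t + Z) / t) - Z ≤ Z ^ 2 / t := by
    intro Z hZ
    have hq : 0 < (t + Z) / t := by positivity
    have h3 := Real.log_le_sub_one_of_pos hq
    have h4 := Real.one_sub_inv_le_log_of_pos hq
    constructor
    · have h5 : (t + Z) * (1 - ((t + Z) / t)⁻¹) ≤ (t + Z) * Real.log ((t + Z) / t) := by gcongr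
      have h6 : (t + Z) * (1 - ((t + Z) / t)⁻¹) = Z := by
        rw [inv_div]; field_simp; ring
      linarith
    · have h5 : (t + Z) * Real.log ((t + Z) / t) ≤ (t + Z) * ((t + Z) / t - 1) := by gcongr
      have h6 : (t + Z) * ((t + Z) / t - 1) = Z + Z ^ 2 / t := by
        field_simp; ring
      linarith
  obtain ⟨k1, k2⟩ := key Y hp
  obtain ⟨k3, k4⟩ := key (-Y) (by linarith)
  rw [← sub_eq_add_neg, sub_neg_eq_add] at k3 k4
  rw [neg_sq] at k4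
  have k5 : Y ^ 2 / t ≤ 4 * (1 + Y ^ 2) / t := by
    gcongr
    nlinarith [sq_nonneg Y]
  rw [abs_le]
  constructor <;> linarith

/-- the critical line, far away from the real axis -/
lemma line1 : ∃ C : ℝ, 1 ≤ C ∧ ∀ κ t Y : ℝ, 2 + 2 * |Y| ≤ t →
    ‖yk κ (1 / 2 + (t + Y : ℝ) * I) * yk κ (1 / 2 - (t - Y : ℝ) * I) -
      cexp ((2 * Y * Real.log (t / (2 * Real.pi)) : ℝ) * I)‖ ≤ C * (1 + Y ^ 2) / t := by
  obtain ⟨C, hC, hG⟩ := Pool.Agent.H19.DL.G_bound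
  refine ⟨2 * C * (1 + C) + 2 * C + 4, by nlinarith, fun κ t Y ht => ?_⟩
  have hY := abs_nonneg Y
  have hY1 := neg_abs_le Y
  have hY2 := le_abs_self Y
  have ht0 : 0 < t := by linarith
  obtain ⟨g1, hg1⟩ : ∃ g : ℝ, g = (t + Y) * Real.log ((t + Y) / (2 * Real.pi)) - (t + Y) := ⟨_, rfl⟩
  obtain ⟨g2, hg2⟩ : ∃ g : ℝ, g = (t - Y) * Real.log ((t - Y) / (2 * Real.pi)) - (t - Y) := ⟨_, rfl⟩
  obtain ⟨θ, hθ⟩ : ∃ θ : ℝ, θ = -(Real.pi * (1 / 2 - κ) / 2) := ⟨_, rfl⟩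
  have h1 : ‖yk κ (1 / 2 + (t + Y : ℝ) * I) - cexp ((θ : ℂ) * I) * cexp ((g1 : ℂ) * I)‖ ≤
      C / (t + Y) := by
    have := hG κ (t + Y) (by linarith)
    rw [hθ, hg1]
    exact this
  have h2 : ‖yk κ (1 / 2 + (t - Y : ℝ) * I) - cexp ((θ : ℂ) * I) * cexp ((g2 : ℂ) * I)‖ ≤
      C / (t - Y) := by
    have := hG κ (t - Y) (by linarith)
    rw [hθ, hg2]
    exact this
  have hcj : (starRingEnd ℂ) (1 / 2 + (t - Y : ℝ) * I) = 1 / 2 - (t - Y : ℝ) * I := by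
    simp [map_ofNat]
    ring
  have h3 : yk κ (1 / 2 - (t - Y : ℝ) * I) = (starRingEnd ℂ) (yk κ (1 / 2 + (t - Y : ℝ) * I)) := by
    rw [← yk_conj, hcj]
  have hce : ∀ a : ℝ, (starRingEnd ℂ) (cexp ((a : ℂ) * I)) = cexp ((-a : ℝ) * I) := by
    intro a
    rw [← Complex.exp_conj]
    congr 1
    simp
  rw [h3]
  obtain ⟨u, hu⟩ : ∃ u : ℂ, u = yk κ (1 / 2 + (t + Y : ℝ) * I) := ⟨_, rfl⟩
  obtain ⟨v, hv⟩ : ∃ v : ℂ, v = yk κ (1 / 2 + (t - Y : ℝ) * I) := ⟨_, rfl⟩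
  rw [← hu] at h1 ⊢
  rw [← hv] at h2 ⊢
  have h1' : ‖u - cexp ((θ : ℂ) * I) * cexp ((g1 : ℂ) * I)‖ ≤ 2 * C / t := by
    refine h1.trans ?_
    rw [div_le_div_iff₀ (by linarith) ht0]
    nlinarith
  have h2' : ‖v - cexp ((θ : ℂ) * I) * cexp ((g2 : ℂ) * I)‖ ≤ 2 * C / t := by
    refine h2.trans ?_
    rw [div_le_div_iff₀ (by linarith) ht0]
    nlinarith
  have hvn : ‖v‖ ≤ 1 + C := by
    have e1 : v = cexp ((θ : ℂ) * I) * cexp ((g2 : ℂ) * I) +
      (v - cexp ((θ : ℂ) * I) * cexp ((g2 : ℂ) * I)) := by ring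
    rw [e1]
    refine (norm_add_le _ _).trans ?_
    rw [norm_mul, norm_expI, norm_expI]
    have : 2 * C / t ≤ C := by
      rw [div_le_iff₀ ht0]
      nlinarith
    linarith
  have e2 : cexp ((θ : ℂ) * I) * cexp ((g1 : ℂ) * I) *
      (starRingEnd ℂ) (cexp ((θ : ℂ) * I) * cexp ((g2 : ℂ) * I)) = cexp ((g1 - g2 : ℝ) * I) := by
    rw [map_mul, hce, hce, ← Complex.exp_add, ← Complex.exp_add, ← Complex.exp_add]
    congr 1
    push_cast
    ring
  have e3 : u * (starRingEnd ℂ) v - cexp ((2 * Y * Real.log (t / (2 * Real.pi)) : ℝ) * I) =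
      (u - cexp ((θ : ℂ) * I) * cexp ((g1 : ℂ) * I)) * (starRingEnd ℂ) v +
      cexp ((θ : ℂ) * I) * cexp ((g1 : ℂ) * I) *
        (starRingEnd ℂ) (v - cexp ((θ : ℂ) * I) * cexp ((g2 : ℂ) * I)) +
      (cexp ((g1 - g2 : ℝ) * I) - cexp ((2 * Y * Real.log (t / (2 * Real.pi)) : ℝ) * I)) := by
    rw [← e2, map_sub]
    ring
  rw [e3]
  have hph := phase ht
  rw [← hg1, ← hg2] at hph
  have h5 := norm_exp_sub (g1 - g2) (2 * Y * Real.log (t / (2 * Real.pi)))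
  calc _ ≤ ‖(u - cexp ((θ : ℂ) * I) * cexp ((g1 : ℂ) * I)) * (starRingEnd ℂ) v‖ +
        ‖cexp ((θ : ℂ) * I) * cexp ((g1 : ℂ) * I) *
        (starRingEnd ℂ) (v - cexp ((θ : ℂ) * I) * cexp ((g2 : ℂ) * I))‖ +
        ‖cexp ((g1 - g2 : ℝ) * I) - cexp ((2 * Y * Real.log (t / (2 * Real.pi)) : ℝ) * I)‖ :=
        norm_add₃_le
    _ ≤ 2 * C / t * (1 + C) + 1 * 1 * (2 * C / t) + 4 * (1 + Y ^ 2) / t := by
        refine add_le_add (add_le_add ?_ ?_) (h5.trans hph)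
        · rw [norm_mul, RCLike.norm_conj]
          gcongr
        · rw [norm_mul, norm_mul, RCLike.norm_conj, norm_expI, norm_expI]
          gcongr
    _ = (2 * C * (1 + C) + 2 * C + 4 * (1 + Y ^ 2)) / t := by ring
    _ ≤ (2 * C * (1 + C) + 2 * C + 4) * (1 + Y ^ 2) / t := by
        gcongr
        nlinarith [sq_nonneg Y, mul_nonneg (by positivity : 0 ≤ 2 * C * (1 + C) + 2 * C) (sq_nonneg Y)]

/-- the main term -/
noncomputable def Pt (t : ℝ) (A : ℂ) : ℂ := cexp ((2 * A - 1) * Real.log (t / (2 * Real.pi)))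

lemma norm_Pt {t : ℝ} (ht : 0 < t) (A : ℂ) :
    ‖Pt t A‖ = (t / (2 * Real.pi)) ^ (2 * A.re - 1) := by
  have h0 : 0 < t / (2 * Real.pi) := by positivity
  unfold Pt
  rw [Complex.norm_exp, Real.rpow_def_of_pos h0, Complex.re_mul_ofReal]
  congr 1
  simp
  ring

lemma q_low {t s : ℝ} (ht : 1 ≤ t) (hs0 : 0 ≤ s) (hs : s ≤ 2) :
    1 / 49 ≤ (t / (2 * Real.pi)) ^ s := by
  have hpi := Real.pi_lt_d2
  have hpi0 := Real.pi_pos
  have h0 : 0 < t / (2 * Real.pi) := by positivity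
  have h1 : 1 / 7 ≤ t / (2 * Real.pi) := by
    rw [div_le_div_iff₀ (by norm_num) (by positivity)]
    linarith
  calc (1 / 49 : ℝ) = (1 / 7) ^ (2 : ℝ) := by norm_num
    _ ≤ (1 / 7) ^ s := Real.rpow_le_rpow_of_exponent_ge (by norm_num) (by norm_num) hs
    _ ≤ (t / (2 * Real.pi)) ^ s := by gcongr

lemma Rf_crude {K : ℝ} (hK : 1 ≤ K) (hb : ∀ κ x v : ℝ, 1 / 2 ≤ x → x ≤ 3 / 2 →
    ‖yk κ (x + v * I)‖ ≤ K * (1 + |v|)) {κ x Y t : ℝ} (ht : 1 ≤ t) (hx1 : 1 / 2 ≤ x)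
    (hx2 : x ≤ 3 / 2) : ‖Rf κ (x + Y * I) t‖ ≤ K ^ 2 * (1 + t + |Y|) ^ 2 := by
  rw [Rf_eq, norm_mul]
  have e1 : (x + Y * I + t * I : ℂ) = x + (Y + t : ℝ) * I := by push_cast; ring
  have e2 : (x + Y * I - t * I : ℂ) = x + (Y - t : ℝ) * I := by push_cast; ring
  rw [e1, e2]
  have h1 := hb κ x (Y + t) hx1 hx2
  have h2 := hb κ x (Y - t) hx1 hx2
  have h3 : |Y + t| ≤ |Y| + t := by
    refine (abs_add_le _ _).trans ?_
    rw [abs_of_nonneg (by linarith : 0 ≤ t)]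
  have h4 : |Y - t| ≤ |Y| + t := by
    refine (abs_sub _ _).trans ?_
    rw [abs_of_nonneg (by linarith : 0 ≤ t)]
  calc ‖yk κ (x + (Y + t : ℝ) * I)‖ * ‖yk κ (x + (Y - t : ℝ) * I)‖
      ≤ (K * (1 + t + |Y|)) * (K * (1 + t + |Y|)) := by
        refine mul_le_mul (h1.trans ?_) (h2.trans ?_) (norm_nonneg _) (by positivity)
        · exact mul_le_mul_of_nonneg_left (by linarith) (by linarith)
        · exact mul_le_mul_of_nonneg_left (by linarith) (by linarith)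
    _ = _ := by ring

/-- the two boundary lines -/
lemma lines : ∃ C : ℝ, 1 ≤ C ∧ ∀ κ t Y x : ℝ, 1 ≤ t → (x = 1 / 2 ∨ x = 3 / 2) →
    ‖Rf κ (x + Y * I) t - Pt t (x + Y * I)‖ ≤
      C * (1 + Y ^ 2) ^ 2 / t * (t / (2 * Real.pi)) ^ (2 * x - 1) := by
  obtain ⟨K, hK, hb⟩ := yk_bound
  obtain ⟨C, hC, h1⟩ := line1
  refine ⟨3536 * K ^ 2 + (2 * (1 + C) + C), by nlinarith, fun κ t Y x ht hx => ?_⟩
  have hY := abs_nonneg Y
  have hY1 := neg_abs_le Y
  have hY2 := le_abs_self Y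
  have hYs : |Y| ^ 2 = Y ^ 2 := sq_abs Y
  have ht0 : 0 < t := by linarith
  have hx1 : 1 / 2 ≤ x := by rcases hx with rfl | rfl <;> norm_num
  have hx2 : x ≤ 3 / 2 := by rcases hx with rfl | rfl <;> norm_num
  have hre : (x + Y * I : ℂ).re = x := by simp
  obtain ⟨q, hq⟩ : ∃ q : ℝ, q = (t / (2 * Real.pi)) ^ (2 * x - 1) := ⟨_, rfl⟩
  have hq1 : 1 / 49 ≤ q := by
    rw [hq]
    exact q_low ht (by linarith) (by linarith)
  have hPn : ‖Pt t (x + Y * I)‖ = q := by rw [norm_Pt ht0, hre, hq]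
  rw [← hq]
  have hq0 : 0 < q := by linarith
  rcases lt_or_ge t (2 + 2 * |Y|) with hbad | hgood
  · have h2 := Rf_crude hK hb (κ := κ) (Y := Y) ht hx1 hx2
    have h3 : ‖Rf κ (x + Y * I) t‖ ≤ K ^ 2 * (9 * (1 + |Y|) ^ 2) := by
      refine h2.trans (mul_le_mul_of_nonneg_left ?_ (by positivity))
      have : 1 + t + |Y| ≤ 3 * (1 + |Y|) := by linarith
      calc (1 + t + |Y|) ^ 2 ≤ (3 * (1 + |Y|)) ^ 2 := by gcongr
        _ = _ := by ring
    have hKK : 1 ≤ K ^ 2 := by nlinarith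
    have hYY : 1 ≤ (1 + |Y|) ^ 2 := by nlinarith
    have h4 : ‖Rf κ (x + Y * I) t - Pt t (x + Y * I)‖ ≤ 442 * K ^ 2 * (1 + |Y|) ^ 2 * q := by
      refine (norm_sub_le _ _).trans ?_
      rw [hPn]
      have h5 : K ^ 2 * (9 * (1 + |Y|) ^ 2) ≤ 441 * K ^ 2 * (1 + |Y|) ^ 2 * q := by
        have : 1 ≤ 49 * q := by linarith
        calc K ^ 2 * (9 * (1 + |Y|) ^ 2) = K ^ 2 * (9 * (1 + |Y|) ^ 2) * 1 := by ring
          _ ≤ K ^ 2 * (9 * (1 + |Y|) ^ 2) * (49 * q) := by gcongr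
          _ = _ := by ring
      have h6 : q ≤ K ^ 2 * (1 + |Y|) ^ 2 * q := by
        have : 1 ≤ K ^ 2 * (1 + |Y|) ^ 2 := by nlinarith
        nlinarith
      linarith
    refine h4.trans ?_
    have h7 : (1 + |Y|) ^ 3 ≤ 4 * (1 + Y ^ 2) ^ 2 := by
      have g1 : (1 + |Y|) ^ 2 ≤ 2 * (1 + Y ^ 2) := by rw [← hYs]; nlinarith [sq_nonneg (1 - |Y|)]
      calc (1 + |Y|) ^ 3 ≤ (1 + |Y|) ^ 4 := pow_le_pow_right₀ (by linarith) (by norm_num)
        _ = ((1 + |Y|) ^ 2) ^ 2 := by ring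
        _ ≤ (2 * (1 + Y ^ 2)) ^ 2 := by gcongr
        _ = _ := by ring
    have h8 : 1 ≤ 2 * (1 + |Y|) / t := by
      rw [le_div_iff₀ ht0]
      linarith
    calc 442 * K ^ 2 * (1 + |Y|) ^ 2 * q = 442 * K ^ 2 * (1 + |Y|) ^ 2 * 1 * q := by ring
      _ ≤ 442 * K ^ 2 * (1 + |Y|) ^ 2 * (2 * (1 + |Y|) / t) * q := by gcongr
      _ = 884 * K ^ 2 * (1 + |Y|) ^ 3 / t * q := by ring
      _ ≤ 884 * K ^ 2 * (4 * (1 + Y ^ 2) ^ 2) / t * q := by gcongr
      _ = (3536 * K ^ 2) * (1 + Y ^ 2) ^ 2 / t * q := by ring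
      _ ≤ _ := by
          gcongr
          linarith
  · have h2 : ∀ κ : ℝ, ‖yk κ (1 / 2 + (t + Y : ℝ) * I) * yk κ (1 / 2 - (t - Y : ℝ) * I) -
      cexp ((2 * Y * Real.log (t / (2 * Real.pi)) : ℝ) * I)‖ ≤ C * (1 + Y ^ 2) / t :=
      fun κ => h1 κ t Y hgood
    rcases hx with rfl | rfl
    · have e1 : Rf κ (((1 / 2 : ℝ) : ℂ) + Y * I) t =
          yk κ (1 / 2 + (t + Y : ℝ) * I) * yk κ (1 / 2 - (t - Y : ℝ) * I) := by
        rw [Rf_eq]
        congr 2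
        · push_cast; ring
        · push_cast; ring
      have e2 : Pt t (((1 / 2 : ℝ) : ℂ) + Y * I) =
          cexp ((2 * Y * Real.log (t / (2 * Real.pi)) : ℝ) * I) := by
        unfold Pt
        congr 1
        push_cast; ring
      have e3 : q = 1 := by rw [hq]; norm_num
      rw [e1, e2, e3, mul_one]
      refine (h2 κ).trans (div_le_div_of_nonneg_right ?_ ht0.le)
      have g1 : (1 + Y ^ 2) ≤ (1 + Y ^ 2) ^ 2 := by nlinarith [sq_nonneg Y]
      have g2 : C ≤ 3536 * K ^ 2 + (2 * (1 + C) + C) := by nlinarith [sq_nonneg K]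
      exact mul_le_mul g2 g1 (by positivity) (by positivity)
    · obtain ⟨w1, hw1⟩ : ∃ w : ℂ, w = 1 / 2 + (t + Y : ℝ) * I := ⟨_, rfl⟩
      obtain ⟨w2, hw2⟩ : ∃ w : ℂ, w = 1 / 2 - (t - Y : ℝ) * I := ⟨_, rfl⟩
      have hw10 : w1 ≠ 0 := by
        intro h
        have := congrArg Complex.re h
        rw [hw1] at this
        simp at this
      have hw20 : w2 ≠ 0 := by
        intro h
        have := congrArg Complex.re h
        rw [hw2] at this
        simp at this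
      have h3 := h2 (κ + 1)
      rw [← hw1, ← hw2] at h3
      obtain ⟨X, hX⟩ : ∃ X : ℂ, X = yk (κ + 1) w1 * yk (κ + 1) w2 := ⟨_, rfl⟩
      obtain ⟨p, hp⟩ : ∃ p : ℂ, p = cexp ((2 * Y * Real.log (t / (2 * Real.pi)) : ℝ) * I) := ⟨_, rfl⟩
      have hpn : ‖p‖ = 1 := by rw [hp]; exact norm_expI _
      rw [← hX, ← hp] at h3
      have e1 : Rf κ (((3 / 2 : ℝ) : ℂ) + Y * I) t = w1 * w2 / (2 * Real.pi) ^ 2 * X := by
        have f1 : (((3 / 2 : ℝ) : ℂ) + Y * I + t * I) = w1 + 1 := by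
          rw [hw1]; push_cast; ring
        have f2 : (((3 / 2 : ℝ) : ℂ) + Y * I - t * I) = w2 + 1 := by
          rw [hw2]; push_cast; ring
        rw [Rf_eq, f1, f2, yk_shift κ hw10, yk_shift κ hw20, hX]
        ring
      have e2 : Pt t (((3 / 2 : ℝ) : ℂ) + Y * I) = (t : ℂ) ^ 2 / (2 * Real.pi) ^ 2 * p := by
        unfold Pt
        have f1 : ((2 * (((3 / 2 : ℝ) : ℂ) + Y * I) - 1) * (Real.log (t / (2 * Real.pi)) : ℝ) : ℂ) =
            ((2 * Real.log (t / (2 * Real.pi)) : ℝ) : ℂ) +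
              ((2 * Y * Real.log (t / (2 * Real.pi)) : ℝ) : ℂ) * I := by
          push_cast; ring
        rw [f1, Complex.exp_add, ← hp, ← Complex.ofReal_exp]
        congr 1
        have f2 : Real.exp (2 * Real.log (t / (2 * Real.pi))) = (t / (2 * Real.pi)) ^ 2 := by
          rw [mul_comm, ← Real.rpow_two, Real.rpow_def_of_pos (by positivity)]
        rw [f2]
        push_cast
        rw [div_pow]
      have e3 : q = t ^ 2 / (2 * Real.pi) ^ 2 := by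
        rw [hq, ← div_pow]
        norm_num
      have e4 : w1 * w2 = (t : ℂ) ^ 2 + ((1 / 4 - Y ^ 2 : ℝ) + Y * I) := by
        rw [hw1, hw2]
        push_cast
        linear_combination (-((t : ℂ) + Y) * (t - Y)) * Complex.I_sq
      have e5 : Rf κ (((3 / 2 : ℝ) : ℂ) + Y * I) t - Pt t (((3 / 2 : ℝ) : ℂ) + Y * I) =
          ((1 / 4 - Y ^ 2 : ℝ) + Y * I) / (2 * Real.pi) ^ 2 * X +
            (t : ℂ) ^ 2 / (2 * Real.pi) ^ 2 * (X - p) := by
        rw [e1, e2, e4]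
        ring
      have h4 : ‖(((1 / 4 - Y ^ 2 : ℝ) : ℂ) + Y * I)‖ ≤ 2 * (1 + Y ^ 2) := by
        refine (norm_add_le _ _).trans ?_
        rw [norm_mul, Complex.norm_real, Complex.norm_real, Complex.norm_I, mul_one,
          Real.norm_eq_abs, Real.norm_eq_abs]
        have g1 : |1 / 4 - Y ^ 2| ≤ 1 / 4 + Y ^ 2 := by
          rw [abs_le]
          constructor <;> nlinarith [sq_nonneg Y]
        nlinarith [sq_nonneg (1 - |Y|)]
      have h5 : ‖X‖ ≤ (1 + C) * (1 + Y ^ 2) := by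
        have g0 : X = p + (X - p) := by ring
        rw [g0]
        refine (norm_add_le _ _).trans ?_
        rw [hpn]
        have g1 : C * (1 + Y ^ 2) / t ≤ C * (1 + Y ^ 2) := div_le_self (by positivity) ht
        nlinarith [sq_nonneg Y]
      have h6 : ‖((2 * Real.pi : ℂ) ^ 2)‖ = (2 * Real.pi) ^ 2 := by
        rw [show (2 * Real.pi : ℂ) ^ 2 = (((2 * Real.pi) ^ 2 : ℝ) : ℂ) by push_cast; ring,
          Complex.norm_real, Real.norm_of_nonneg (by positivity)]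
      have h7 : ‖((t : ℂ) ^ 2)‖ = t ^ 2 := by
        rw [norm_pow, Complex.norm_real, Real.norm_of_nonneg ht0.le]
      rw [e5, e3]
      calc _ ≤ ‖(((1 / 4 - Y ^ 2 : ℝ) : ℂ) + Y * I)‖ / (2 * Real.pi) ^ 2 * ‖X‖ +
            t ^ 2 / (2 * Real.pi) ^ 2 * ‖X - p‖ := by
            refine (norm_add_le _ _).trans ?_
            rw [norm_mul, norm_mul, norm_div, norm_div, h6, h7]
        _ ≤ (2 * (1 + Y ^ 2)) / (2 * Real.pi) ^ 2 * ((1 + C) * (1 + Y ^ 2)) +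
            t ^ 2 / (2 * Real.pi) ^ 2 * (C * (1 + Y ^ 2) / t) := by gcongr
        _ = (2 * (1 + C) * (1 + Y ^ 2) ^ 2 * (1 / t ^ 2) + C * (1 + Y ^ 2) * (1 / t)) *
            (t ^ 2 / (2 * Real.pi) ^ 2) := by
            field_simp
        _ ≤ (2 * (1 + C) * (1 + Y ^ 2) ^ 2 * (1 / t) + C * (1 + Y ^ 2) ^ 2 * (1 / t)) *
            (t ^ 2 / (2 * Real.pi) ^ 2) := by
            gcongr
            · nlinarith
            · nlinarith [sq_nonneg Y]
        _ = (2 * (1 + C) + C) * (1 + Y ^ 2) ^ 2 / t * (t ^ 2 / (2 * Real.pi) ^ 2) := by ring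
        _ ≤ _ := by
            have g2 : 2 * (1 + C) + C ≤ 3536 * K ^ 2 + (2 * (1 + C) + C) := by
              nlinarith [sq_nonneg K]
            exact mul_le_mul_of_nonneg_right (div_le_div_of_nonneg_right
              (mul_le_mul_of_nonneg_right g2 (by positivity)) ht0.le) (by positivity)

lemma quart_le_exp (Y : ℝ) : (1 + Y ^ 2) ^ 2 ≤ 8 * Real.exp (Y ^ 2 / 2) := by
  have h := Real.quadratic_le_exp_of_nonneg (show 0 ≤ Y ^ 2 / 2 by positivity)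
  nlinarith [sq_nonneg Y, sq_nonneg (Y ^ 2)]

lemma diff_yk (κ : ℝ) {w : ℂ} (hw : 0 < w.re) : DifferentiableAt ℂ (yk κ) w := by
  have hne : ∀ m : ℕ, w ≠ -m := by
    intro m h
    have := congrArg Complex.re h
    simp at this
    have h2 : (0 : ℝ) ≤ m := Nat.cast_nonneg _
    linarith
  have h1 : DifferentiableAt ℂ Gammaℂ w := by
    have h2 : DifferentiableAt ℂ (fun s : ℂ => 2 * (2 * Real.pi : ℂ) ^ (-s) * Complex.Gamma s) w := by
      refine DifferentiableAt.mul (DifferentiableAt.const_mul ?_ 2)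
        (Complex.differentiableAt_Gamma w hne)
      refine differentiableAt_id.neg.const_cpow (Or.inl ?_)
      exact mul_ne_zero two_ne_zero (ofReal_ne_zero.mpr Real.pi_ne_zero)
    exact h2
  have h3 : DifferentiableAt ℂ (fun w : ℂ => Complex.cos (Real.pi * (w - κ) / 2)) w := by
    fun_prop
  exact h1.mul h3

theorem th : T_TH := by
  obtain ⟨K, hK, hb⟩ := yk_bound
  obtain ⟨C, hC, hl⟩ := lines
  refine ⟨8 * C * Real.exp (9 / 8), by positivity, ?_⟩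
  intro κ A t _ hA1 hA2 ht
  have ht0 : 0 < t := by linarith
  obtain ⟨h, hh⟩ : ∃ h : ℂ → ℂ, h = fun A => (Rf κ A t / Pt t A - 1) * cexp (A ^ 2 / 2) := ⟨_, rfl⟩
  have hPne : ∀ A : ℂ, Pt t A ≠ 0 := fun A => Complex.exp_ne_zero _
  have hdiff : DifferentiableOn ℂ h {z : ℂ | 0 < z.re} := by
    intro z hz
    refine DifferentiableAt.differentiableWithinAt ?_
    have hz' : 0 < z.re := hz
    have d1 : DifferentiableAt ℂ (fun A : ℂ => yk κ (A + t * I)) z := by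
      have := (diff_yk κ (w := z + t * I) (by simpa using hz'))
      exact this.comp z (f := fun A : ℂ => A + t * I) (by fun_prop)
    have d2 : DifferentiableAt ℂ (fun A : ℂ => yk κ (A - t * I)) z := by
      have := (diff_yk κ (w := z - t * I) (by simpa using hz'))
      exact this.comp z (f := fun A : ℂ => A - t * I) (by fun_prop)
    have d3 : DifferentiableAt ℂ (Pt t) z := by
      unfold Pt
      fun_prop
    have d4 : DifferentiableAt ℂ (fun A : ℂ => cexp (A ^ 2 / 2)) z := by fun_prop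
    rw [hh]
    exact (((d1.mul d2).div d3 (hPne z)).sub_const 1).mul d4
  have hcl : closure (re ⁻¹' Ioo (1 / 2 : ℝ) (3 / 2)) ⊆ {z : ℂ | 0 < z.re} := by
    have h1 : closure (re ⁻¹' Ioo (1 / 2 : ℝ) (3 / 2)) ⊆ {z : ℂ | 1 / 2 ≤ z.re} := by
      refine closure_minimal (fun z hz => ?_) (isClosed_le continuous_const Complex.continuous_re)
      exact le_of_lt hz.1
    intro z hz
    have h2 : 1 / 2 ≤ z.re := h1 hz
    have : 0 < z.re := by linarith
    exact this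
  have hnexp : ∀ z : ℂ, ‖cexp (z ^ 2 / 2)‖ = Real.exp (z.re ^ 2 / 2) * Real.exp (-(z.im ^ 2 / 2)) := by
    intro z
    rw [Complex.norm_exp, ← Real.exp_add]
    congr 1
    have : (z ^ 2 / 2).re = (z.re ^ 2 - z.im ^ 2) / 2 := by
      rw [sq]
      simp
      ring
    rw [this]
    ring
  have hE : ∀ Y : ℝ, Real.exp (Y ^ 2 / 2) * Real.exp (-(Y ^ 2 / 2)) = 1 := by
    intro Y
    rw [← Real.exp_add]
    simp
  have hline : ∀ z : ℂ, (z.re = 1 / 2 ∨ z.re = 3 / 2) → ‖h z‖ ≤ 8 * C * Real.exp (9 / 8) / t := by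
    intro z hz
    have h1 := hl κ t z.im z.re ht hz
    have h2 : ((z.re : ℂ) + z.im * I) = z := Complex.re_add_im z
    rw [h2, ← norm_Pt ht0] at h1
    have hP0 : 0 < ‖Pt t z‖ := norm_pos_iff.2 (hPne z)
    have h3 : ‖Rf κ z t / Pt t z - 1‖ ≤ C * (1 + z.im ^ 2) ^ 2 / t := by
      have e : Rf κ z t / Pt t z - 1 = (Rf κ z t - Pt t z) / Pt t z := by
        rw [sub_div, div_self (hPne z)]
      rw [e, norm_div, div_le_iff₀ hP0]
      exact h1
    have h4 : Real.exp (z.re ^ 2 / 2) ≤ Real.exp (9 / 8) := by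
      apply Real.exp_le_exp.2
      rcases hz with hz | hz <;> rw [hz] <;> norm_num
    rw [hh]
    simp only
    rw [norm_mul, hnexp]
    calc ‖Rf κ z t / Pt t z - 1‖ * (Real.exp (z.re ^ 2 / 2) * Real.exp (-(z.im ^ 2 / 2)))
        ≤ (C * (8 * Real.exp (z.im ^ 2 / 2)) / t) *
          (Real.exp (9 / 8) * Real.exp (-(z.im ^ 2 / 2))) := by
          refine mul_le_mul (h3.trans ?_) ?_ (by positivity) (by positivity)
          · gcongr
            exact quart_le_exp _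
          · gcongr
      _ = 8 * C * Real.exp (9 / 8) / t * (Real.exp (z.im ^ 2 / 2) * Real.exp (-(z.im ^ 2 / 2))) := by
          ring
      _ = _ := by rw [hE, mul_one]
  have hgrow : ∃ c < Real.pi / (3 / 2 - 1 / 2), ∃ B, h =O[comap (_root_.abs ∘ im) atTop ⊓
      𝓟 (re ⁻¹' Ioo (1 / 2 : ℝ) (3 / 2))] fun z ↦ Real.exp (B * Real.exp (c * |z.im|)) := by
    refine ⟨0, by norm_num; exact Real.pi_pos, 0, ?_⟩
    obtain ⟨M, hM⟩ : ∃ M : ℝ, M = (49 * K ^ 2 * (1 + t) ^ 2 * 16 + 8) * Real.exp (9 / 8) := ⟨_, rfl⟩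
    refine Asymptotics.IsBigO.of_bound M ?_
    refine Filter.Eventually.filter_mono inf_le_right ?_
    rw [Filter.eventually_principal]
    intro z hz
    have hz1 : 1 / 2 ≤ z.re := le_of_lt hz.1
    have hz2 : z.re ≤ 3 / 2 := le_of_lt hz.2
    simp only [zero_mul, Real.exp_zero, norm_one, mul_one]
    have h2 : ((z.re : ℂ) + z.im * I) = z := Complex.re_add_im z
    have h1 := Rf_crude hK hb (κ := κ) (Y := z.im) ht hz1 hz2
    rw [h2] at h1
    have hP1 : 1 / 49 ≤ ‖Pt t z‖ := by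
      rw [norm_Pt ht0]
      exact q_low ht (by linarith) (by linarith)
    have hP0 : 0 < ‖Pt t z‖ := by linarith
    have hY := abs_nonneg z.im
    have hYs : |z.im| ^ 2 = z.im ^ 2 := sq_abs _
    have h3 : ‖Rf κ z t / Pt t z - 1‖ ≤ 49 * K ^ 2 * (1 + t) ^ 2 * (2 * (1 + z.im ^ 2) ^ 2) + 1 := by
      refine (norm_sub_le _ _).trans ?_
      rw [norm_div, norm_one]
      have g1 : ‖Rf κ z t‖ / ‖Pt t z‖ ≤ 49 * (K ^ 2 * (1 + t + |z.im|) ^ 2) := by
        rw [div_le_iff₀ hP0]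
        have : 1 ≤ 49 * ‖Pt t z‖ := by linarith
        calc ‖Rf κ z t‖ ≤ (K ^ 2 * (1 + t + |z.im|) ^ 2) * 1 := by rw [mul_one]; exact h1
          _ ≤ (K ^ 2 * (1 + t + |z.im|) ^ 2) * (49 * ‖Pt t z‖) := by gcongr
          _ = _ := by ring
      have g2 : (1 + t + |z.im|) ^ 2 ≤ (1 + t) ^ 2 * (2 * (1 + z.im ^ 2) ^ 2) := by
        have g3 : 1 + t + |z.im| ≤ (1 + t) * (1 + |z.im|) := by nlinarith
        have g4 : (1 + |z.im|) ^ 2 ≤ 2 * (1 + z.im ^ 2) := by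
          rw [← hYs]; nlinarith [sq_nonneg (1 - |z.im|)]
        have g5 : (1 + z.im ^ 2) ≤ (1 + z.im ^ 2) ^ 2 := by nlinarith [sq_nonneg z.im]
        calc (1 + t + |z.im|) ^ 2 ≤ ((1 + t) * (1 + |z.im|)) ^ 2 := by gcongr
          _ = (1 + t) ^ 2 * (1 + |z.im|) ^ 2 := by ring
          _ ≤ (1 + t) ^ 2 * (2 * (1 + z.im ^ 2)) := by gcongr
          _ ≤ _ := by gcongr
      calc ‖Rf κ z t‖ / ‖Pt t z‖ + 1 ≤ 49 * (K ^ 2 * (1 + t + |z.im|) ^ 2) + 1 := by linarith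
        _ ≤ 49 * (K ^ 2 * ((1 + t) ^ 2 * (2 * (1 + z.im ^ 2) ^ 2))) + 1 := by gcongr
        _ = _ := by ring
    have h4 : Real.exp (z.re ^ 2 / 2) ≤ Real.exp (9 / 8) := by
      apply Real.exp_le_exp.2
      nlinarith
    have h5 := quart_le_exp z.im
    have h6 : 1 ≤ Real.exp (z.im ^ 2 / 2) := Real.one_le_exp (by positivity)
    rw [hh]
    simp only
    rw [norm_mul, hnexp]
    calc ‖Rf κ z t / Pt t z - 1‖ * (Real.exp (z.re ^ 2 / 2) * Real.exp (-(z.im ^ 2 / 2)))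
        ≤ ((49 * K ^ 2 * (1 + t) ^ 2 * 16 + 8) * Real.exp (z.im ^ 2 / 2)) *
          (Real.exp (9 / 8) * Real.exp (-(z.im ^ 2 / 2))) := by
          refine mul_le_mul (h3.trans ?_) ?_ (by positivity) (by positivity)
          · have g1 : 49 * K ^ 2 * (1 + t) ^ 2 * (2 * (1 + z.im ^ 2) ^ 2) ≤
                49 * K ^ 2 * (1 + t) ^ 2 * (2 * (8 * Real.exp (z.im ^ 2 / 2))) := by gcongr
            nlinarith
          · gcongr
      _ = M * (Real.exp (z.im ^ 2 / 2) * Real.exp (-(z.im ^ 2 / 2))) := by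
          rw [hM]; ring
      _ = M := by rw [hE, mul_one]
  have hPL := PhragmenLindelof.vertical_strip (f := h) (a := 1 / 2) (b := 3 / 2)
    (C := 8 * C * Real.exp (9 / 8) / t) (hdiff.mono hcl).diffContOnCl hgrow
    (fun z hz => hline z (Or.inl hz)) (fun z hz => hline z (Or.inr hz)) hA1 hA2
  have hP0 : 0 < ‖Pt t A‖ := norm_pos_iff.2 (hPne A)
  have e1 : Rf κ A t - Pt t A = h A * Pt t A * cexp (-(A ^ 2 / 2)) := by
    rw [hh]
    simp only
    have g1 : cexp (A ^ 2 / 2) * cexp (-(A ^ 2 / 2)) = 1 := by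
      rw [← Complex.exp_add]
      simp
    have g2 : Rf κ A t / Pt t A * Pt t A = Rf κ A t := div_mul_cancel₀ _ (hPne A)
    calc Rf κ A t - Pt t A = (Rf κ A t / Pt t A * Pt t A - Pt t A) * 1 := by rw [g2, mul_one]
      _ = (Rf κ A t / Pt t A * Pt t A - Pt t A) * (cexp (A ^ 2 / 2) * cexp (-(A ^ 2 / 2))) := by
          rw [g1]
      _ = _ := by ring
  have h7 : ‖cexp (-(A ^ 2 / 2))‖ ≤ Real.exp (A.im ^ 2 / 2) := by
    rw [Complex.norm_exp]
    apply Real.exp_le_exp.2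
    have : (-(A ^ 2 / 2)).re = (A.im ^ 2 - A.re ^ 2) / 2 := by
      rw [sq]
      simp
      ring
    rw [this]
    nlinarith [sq_nonneg A.re]
  change ‖Rf κ A t - Pt t A‖ ≤ _
  rw [e1, norm_mul, norm_mul, ← norm_Pt ht0]
  gcongr

end Pool.Agent.H63.PZ.TH
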