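import Pool.Agent.H28.MZ.Targets
import Pool.Agent.H89.Cubic.Div

/-!
# Module TV: the part without cancellation
-/

set_option autoImplicit false

open Filter Topology

namespace Pool.Agent.H63.PZ.TV

open Pool.Agent.H28.MZ

lemma gauss_le {H L : ℝ} (hH : 8 ≤ H) {n : ℕ} (hn : 1 ≤ n) :
    Real.exp (-(H ^ 2 * (L - Real.log n) ^ 2 / 8)) ≤ Real.exp (1 + 2 * L) * (n : ℝ) ^ (-2 : ℝ) := by
  have hn0 : (0 : ℝ) < n := by exact_mod_cast hn
  rw [Real.rpow_def_of_pos hn0, ← Real.exp_add]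
  apply Real.exp_le_exp.2
  have h1 : 64 ≤ H ^ 2 := by nlinarith
  nlinarith [mul_le_mul_of_nonneg_right h1 (sq_nonneg (L - Real.log n)),
    sq_nonneg (L - Real.log n), sq_nonneg (L - Real.log n + 1)]

lemma inner {C1 C2 e e' a δ H L : ℝ} (hC1 : 0 < C1) (hC2 : 0 < C2)
    (h1 : ∀ n : ℕ, 1 ≤ n → dv n ≤ C1 * (n : ℝ) ^ e) (h2 : ∀ n : ℕ, 1 ≤ n → dv n ≤ C2 * (n : ℝ) ^ e')
    (he0 : 0 ≤ e) (hea : e ≤ a) (he1 : e ≤ 1) (he'0 : 0 ≤ e') (he'1 : e' ≤ 1) (ha1 : a ≤ 1)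
    (hδ0 : 0 < δ) (hδ : δ ≤ 1 / 2) (hH : 8 ≤ H) :
    Summable (fun n : ℕ => dv n * (n : ℝ) ^ (-a) *
      Real.exp (-(H ^ 2 * (L - Real.log n) ^ 2 / 4))) ∧
    ∑' n : ℕ, dv n * (n : ℝ) ^ (-a) * Real.exp (-(H ^ 2 * (L - Real.log n) ^ 2 / 4)) ≤
      4 * C1 * Real.exp L ^ (e - a) + 8 * C2 * δ * Real.exp L ^ (1 + e' - a) +
        C1 * (Real.exp (1 + 2 * L) * Real.exp (-(H ^ 2 * δ ^ 2 / 32))) *
          ∑' n : ℕ, (n : ℝ) ^ (-2 : ℝ) := by
  have ha0 : 0 ≤ a := he0.trans hea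
  have hx0 : 0 < Real.exp L := Real.exp_pos L
  obtain ⟨x, hx⟩ : ∃ x : ℝ, x = Real.exp L := ⟨_, rfl⟩
  have hlx : Real.log x = L := by rw [hx, Real.log_exp]
  rw [← hx] at hx0
  have hS2 : Summable fun n : ℕ => (n : ℝ) ^ (-2 : ℝ) := Real.summable_nat_rpow.2 (by norm_num)
  obtain ⟨f, hf⟩ : ∃ f : ℕ → ℝ, f = fun n : ℕ => dv n * (n : ℝ) ^ (-a) *
      Real.exp (-(H ^ 2 * (L - Real.log n) ^ 2 / 4)) := ⟨_, rfl⟩
  have hdv0 : ∀ n, 0 ≤ dv n := fun n => Nat.cast_nonneg _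
  have hf0 : ∀ n, 0 ≤ f n := by
    intro n
    rw [hf]
    have := hdv0 n
    positivity
  have hfz : f 0 = 0 := by
    rw [hf]
    simp [dv]
  have hexp4 : ∀ n : ℕ, Real.exp (-(H ^ 2 * (L - Real.log n) ^ 2 / 4)) =
      Real.exp (-(H ^ 2 * (L - Real.log n) ^ 2 / 8)) *
        Real.exp (-(H ^ 2 * (L - Real.log n) ^ 2 / 8)) := by
    intro n
    rw [← Real.exp_add]
    congr 1
    ring
  have hpre : ∀ n : ℕ, 1 ≤ n → dv n * (n : ℝ) ^ (-a) ≤ C1 := by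
    intro n hn
    have hn1 : (1 : ℝ) ≤ n := by exact_mod_cast hn
    have hn0 : (0 : ℝ) < n := by linarith
    calc dv n * (n : ℝ) ^ (-a) ≤ C1 * (n : ℝ) ^ e * (n : ℝ) ^ (-a) := by
          gcongr
          exact h1 n hn
      _ = C1 * (n : ℝ) ^ (e - a) := by
          rw [mul_assoc, ← Real.rpow_add hn0]
          congr 2
      _ ≤ C1 * 1 := by
          gcongr
          exact Real.rpow_le_one_of_one_le_of_nonpos hn1 (by linarith)
      _ = C1 := mul_one _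
  have hfs : Summable f := by
    refine Summable.of_nonneg_of_le hf0 (fun n => ?_) (hS2.mul_left (C1 * Real.exp (1 + 2 * L)))
    rcases Nat.eq_zero_or_pos n with rfl | hn
    · rw [hfz]
      positivity
    · rw [hf]
      have h3 := gauss_le (L := L) hH hn
      have h4 : Real.exp (-(H ^ 2 * (L - Real.log n) ^ 2 / 4)) ≤
          Real.exp (-(H ^ 2 * (L - Real.log n) ^ 2 / 8)) := by
        apply Real.exp_le_exp.2
        have : 0 ≤ H ^ 2 * (L - Real.log n) ^ 2 := by positivity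
        linarith
      calc dv n * (n : ℝ) ^ (-a) * Real.exp (-(H ^ 2 * (L - Real.log n) ^ 2 / 4))
          ≤ C1 * (Real.exp (1 + 2 * L) * (n : ℝ) ^ (-2 : ℝ)) := by
            gcongr
            · exact hpre n hn
            · exact h4.trans h3
        _ = _ := by ring
  obtain ⟨E, hE⟩ : ∃ E : ℝ, E = Real.exp (-(H ^ 2 * δ ^ 2 / 32)) := ⟨_, rfl⟩
  have hE0 : 0 < E := by rw [hE]; exact Real.exp_pos _
  obtain ⟨B, hB⟩ : ∃ B : ℝ, B = min (4 * C1 * x ^ (e - a)) (4 * C2 * x ^ (e' - a)) := ⟨_, rfl⟩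
  have hB0 : 0 ≤ B := by
    rw [hB]
    exact le_min (by positivity) (by positivity)
  obtain ⟨A, hA⟩ : ∃ A : Finset ℕ, A = Finset.Icc ⌈x * (1 - δ)⌉₊ ⌊x * (1 + δ)⌋₊ := ⟨_, rfl⟩
  have hmemA : ∀ n : ℕ, n ∈ A ↔ x * (1 - δ) ≤ n ∧ (n : ℝ) ≤ x * (1 + δ) := by
    intro n
    rw [hA, Finset.mem_Icc, Nat.ceil_le, Nat.le_floor_iff (by positivity)]
  -- bound in the window
  have hwin : ∀ n : ℕ, 1 ≤ n → n ∈ A → f n ≤ B := by
    intro n hn hnA
    obtain ⟨g1, g2⟩ := (hmemA n).1 hnA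
    have hn1 : (1 : ℝ) ≤ n := by exact_mod_cast hn
    have hn0 : (0 : ℝ) < n := by linarith
    have g3 : x / 2 ≤ n := by nlinarith
    have g4 : (n : ℝ) ≤ 2 * x := by nlinarith
    have g5 : (n : ℝ) ^ (-a) ≤ 2 * x ^ (-a) := by
      calc (n : ℝ) ^ (-a) ≤ (x / 2) ^ (-a) :=
            Real.rpow_le_rpow_of_nonpos (by positivity) g3 (by linarith)
        _ = 2 ^ a * x ^ (-a) := by
            rw [Real.div_rpow hx0.le (by norm_num), Real.rpow_neg (by norm_num : (0 : ℝ) ≤ 2),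
              div_inv_eq_mul, mul_comm]
        _ ≤ 2 ^ (1 : ℝ) * x ^ (-a) := by
            gcongr
            norm_num
        _ = 2 * x ^ (-a) := by rw [Real.rpow_one]
    have g6 : Real.exp (-(H ^ 2 * (L - Real.log n) ^ 2 / 4)) ≤ 1 := by
      rw [Real.exp_le_one_iff]
      have : 0 ≤ H ^ 2 * (L - Real.log n) ^ 2 := by positivity
      linarith
    have key : ∀ (C b : ℝ), 0 < C → 0 ≤ b → b ≤ 1 → dv n ≤ C * (n : ℝ) ^ b →
        f n ≤ 4 * C * x ^ (b - a) := by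
      intro C b hC hb0 hb1 hd
      have g7 : (n : ℝ) ^ b ≤ 2 * x ^ b := by
        calc (n : ℝ) ^ b ≤ (2 * x) ^ b := by gcongr
          _ = 2 ^ b * x ^ b := Real.mul_rpow (by norm_num) hx0.le
          _ ≤ 2 ^ (1 : ℝ) * x ^ b := by
              gcongr
              norm_num
          _ = 2 * x ^ b := by rw [Real.rpow_one]
      rw [hf]
      calc dv n * (n : ℝ) ^ (-a) * Real.exp (-(H ^ 2 * (L - Real.log n) ^ 2 / 4))
          ≤ (C * (2 * x ^ b)) * (2 * x ^ (-a)) * 1 := by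
            gcongr
            exact hd.trans (by gcongr)
        _ = 4 * C * (x ^ b * x ^ (-a)) := by ring
        _ = 4 * C * x ^ (b - a) := by
            rw [← Real.rpow_add hx0]
            rfl
    rw [hB]
    exact le_min (key C1 e hC1 he0 he1 (h1 n hn)) (key C2 e' hC2 he'0 he'1 (h2 n hn))
  -- bound outside the window
  have hout : ∀ n : ℕ, 1 ≤ n → n ∉ A → f n ≤ C1 * (Real.exp (1 + 2 * L) * E) * (n : ℝ) ^ (-2 : ℝ) := by
    intro n hn hnA
    have hn1 : (1 : ℝ) ≤ n := by exact_mod_cast hn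
    have hn0 : (0 : ℝ) < n := by linarith
    have hy : δ / 2 ≤ |L - Real.log n| := by
      rw [hmemA, not_and_or, not_le, not_le] at hnA
      rcases hnA with h | h
      · -- n < x (1 - δ)
        have g1 : Real.log n ≤ Real.log (x * (1 - δ)) := Real.log_le_log hn0 h.le
        rw [Real.log_mul hx0.ne' (by linarith), hlx] at g1
        have g2 : Real.log (1 - δ) ≤ -δ := by
          have := Real.log_le_sub_one_of_pos (show 0 < 1 - δ by linarith)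
          linarith
        refine le_trans ?_ (le_abs_self _)
        linarith
      · have g1 : Real.log (x * (1 + δ)) ≤ Real.log n := Real.log_le_log (by positivity) h.le
        rw [Real.log_mul hx0.ne' (by linarith), hlx] at g1
        have g2 : δ / 2 ≤ Real.log (1 + δ) := by
          have g3 := Real.one_sub_inv_le_log_of_pos (show 0 < 1 + δ by linarith)
          have g4 : δ / 2 ≤ 1 - (1 + δ)⁻¹ := by
            rw [show 1 - (1 + δ)⁻¹ = δ / (1 + δ) by field_simp; ring]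
            exact div_le_div_of_nonneg_left hδ0.le (by linarith) (by linarith)
          linarith
        rw [abs_sub_comm]
        refine le_trans ?_ (le_abs_self _)
        linarith
    have hy2 : δ ^ 2 / 4 ≤ (L - Real.log n) ^ 2 := by
      rw [← sq_abs (L - Real.log n)]
      nlinarith [abs_nonneg (L - Real.log n)]
    have h8 : Real.exp (-(H ^ 2 * (L - Real.log n) ^ 2 / 8)) ≤ E := by
      rw [hE]
      apply Real.exp_le_exp.2
      have := mul_le_mul_of_nonneg_left hy2 (sq_nonneg H)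
      linarith
    rw [hf]
    calc dv n * (n : ℝ) ^ (-a) * Real.exp (-(H ^ 2 * (L - Real.log n) ^ 2 / 4))
        ≤ C1 * ((Real.exp (1 + 2 * L) * (n : ℝ) ^ (-2 : ℝ)) * E) := by
          rw [hexp4]
          gcongr
          · exact hpre n hn
          · exact gauss_le hH hn
      _ = _ := by ring
  have hg : ∀ n : ℕ, f n ≤ (if n ∈ A then B else 0) +
      C1 * (Real.exp (1 + 2 * L) * E) * (n : ℝ) ^ (-2 : ℝ) := by
    intro n
    have hp : 0 ≤ C1 * (Real.exp (1 + 2 * L) * E) * (n : ℝ) ^ (-2 : ℝ) := by positivity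
    rcases Nat.eq_zero_or_pos n with rfl | hn
    · rw [hfz]
      split_ifs <;> linarith
    · by_cases hnA : n ∈ A
      · rw [if_pos hnA]
        linarith [hwin n hn hnA]
      · rw [if_neg hnA]
        linarith [hout n hn hnA]
  have hsA : HasSum (fun n : ℕ => if n ∈ A then B else 0) (∑ n ∈ A, B) := by
    have h3 : HasSum (fun n : ℕ => if n ∈ A then B else 0) (∑ n ∈ A, if n ∈ A then B else 0) :=
      hasSum_sum_of_ne_finset_zero (fun n hn => if_neg hn)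
    have h4 : (∑ n ∈ A, if n ∈ A then B else 0) = ∑ n ∈ A, B :=
      Finset.sum_congr rfl fun n hn => if_pos hn
    rwa [h4] at h3
  have hcard : (A.card : ℝ) ≤ 2 * x * δ + 1 := by
    rw [hA, Nat.card_Icc]
    rcases le_total ⌈x * (1 - δ)⌉₊ (⌊x * (1 + δ)⌋₊ + 1) with h | h
    · rw [Nat.cast_sub h]
      push_cast
      have g1 := Nat.floor_le (show 0 ≤ x * (1 + δ) by positivity)
      have g2 := Nat.le_ceil (x * (1 - δ))
      nlinarith
    · rw [Nat.sub_eq_zero_of_le h]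
      push_cast
      positivity
  have hsumA : ∑ n ∈ A, B ≤ 4 * C1 * x ^ (e - a) + 8 * C2 * δ * x ^ (1 + e' - a) := by
    rw [Finset.sum_const, nsmul_eq_mul]
    calc (A.card : ℝ) * B ≤ (2 * x * δ + 1) * B := by gcongr
      _ = B + 2 * x * δ * B := by ring
      _ ≤ 4 * C1 * x ^ (e - a) + 2 * x * δ * (4 * C2 * x ^ (e' - a)) := by
          gcongr
          · rw [hB]; exact min_le_left _ _
          · rw [hB]; exact min_le_right _ _
      _ = 4 * C1 * x ^ (e - a) + 8 * C2 * δ * (x ^ (1 : ℝ) * x ^ (e' - a)) := by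
          rw [Real.rpow_one]; ring
      _ = _ := by
          rw [← Real.rpow_add hx0]
          congr 3
          ring
  refine ⟨hf ▸ hfs, ?_⟩
  have hfin : ∑' n, f n ≤ (∑ n ∈ A, B) + C1 * (Real.exp (1 + 2 * L) * E) * ∑' n : ℕ, (n : ℝ) ^ (-2 : ℝ) := by
    have hs3 := hS2.mul_left (C1 * (Real.exp (1 + 2 * L) * E))
    refine (hfs.tsum_le_tsum hg (hsA.summable.add hs3)).trans ?_
    rw [hsA.summable.tsum_add hs3, hsA.tsum_eq, tsum_mul_left]
  rw [← hx, ← hE]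
  rw [hf] at hfin
  linarith

lemma ev_exp {ε : ℝ} (hε : 0 < ε) (M : ℝ) :
    ∀ᶠ T : ℝ in atTop, M * (T ^ (5 : ℝ) * Real.exp (-(T ^ (2 * ε) / 32))) ≤ 1 := by
  have h1 := tendsto_rpow_mul_exp_neg_mul_atTop_nhds_zero (5 / (2 * ε)) (1 / 32) (by norm_num)
  have h2 := h1.comp (tendsto_rpow_atTop (show 0 < 2 * ε by positivity))
  have h3 := h2.const_mul M
  rw [mul_zero] at h3
  filter_upwards [h3.eventually_le_const zero_lt_one, eventually_gt_atTop 0] with T hT hT0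
  simp only [Function.comp] at hT
  rw [← Real.rpow_mul hT0.le, show 2 * ε * (5 / (2 * ε)) = 5 by field_simp] at hT
  rw [show -(T ^ (2 * ε) / 32) = -(1 / 32) * T ^ (2 * ε) by ring]
  exact hT

theorem tv : T_TV := by
  intro r hr1 hr2
  obtain ⟨e, he⟩ : ∃ e : ℝ, e = (r - 1) / 40 := ⟨_, rfl⟩
  obtain ⟨C1, hC1, hd1⟩ := Pool.Agent.H89.Cubic.div_bound e (by rw [he]; linarith)
  obtain ⟨Z, hZ⟩ : ∃ Z : ℝ, Z = ∑' K : ℕ, (K : ℝ) ^ (-(1 + (r - 1) / 4)) := ⟨_, rfl⟩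
  obtain ⟨Z2, hZ2⟩ : ∃ Z2 : ℝ, Z2 = ∑' K : ℕ, (K : ℝ) ^ (-2 : ℝ) := ⟨_, rfl⟩
  have hZ0 : 0 ≤ Z := by
    rw [hZ]
    exact tsum_nonneg fun n => by positivity
  have hZ20 : 0 ≤ Z2 := by
    rw [hZ2]
    exact tsum_nonneg fun n => by positivity
  refine ⟨1 / 100, 4 * C1 ^ 2 * Z + 2, by norm_num, by positivity, ?_⟩
  intro ε R hε hε1 hR
  obtain ⟨C2, hC2, hd2⟩ := Pool.Agent.H89.Cubic.div_bound (ε / 100) (by positivity)
  have ev1 : ∀ᶠ T : ℝ in atTop, R / Real.log T ≤ min ((r - 1) / 64) (ε / 160) :=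
    (Real.tendsto_log_atTop.const_div_atTop R).eventually_le_const
      (lt_min (by linarith) (by positivity))
  have ev2 : ∀ᶠ T : ℝ in atTop, (8 : ℝ) ≤ T ^ (1 - ε) :=
    (tendsto_rpow_atTop (show 0 < 1 - ε by linarith)).eventually_ge_atTop 8
  have ev3 : ∀ᶠ T : ℝ in atTop, T ^ (-(1 - 2 * ε)) ≤ (1 / 2 : ℝ) :=
    (tendsto_rpow_neg_atTop (show 0 < 1 - 2 * ε by linarith)).eventually_le_const (by norm_num)
  have ev4 : ∀ᶠ T : ℝ in atTop, 8 * C2 ^ 2 * T ^ (-ε) ≤ (1 : ℝ) := by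
    have h1 := (tendsto_rpow_neg_atTop hε).const_mul (8 * C2 ^ 2)
    rw [mul_zero] at h1
    exact h1.eventually_le_const zero_lt_one
  have ev5 := ev_exp hε (C1 * Real.exp 1 * Z2)
  obtain ⟨T₀, hT₀⟩ := eventually_atTop.1 (((((eventually_ge_atTop (10 : ℝ)).and ev1).and ev2).and
    (ev3.and ev4)).and ev5)
  refine ⟨T₀, fun T hT => ?_⟩
  obtain ⟨⟨⟨⟨hT10, h1⟩, h2⟩, h3, h4⟩, h5⟩ := hT₀ T hT
  have hT0 : 0 < T := by linarith
  have hT1 : 1 ≤ T := by linarith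
  obtain ⟨η, hη⟩ : ∃ η : ℝ, η = R / Real.log T := ⟨_, rfl⟩
  rw [← hη] at h1 ⊢
  have hη0 : 0 ≤ η := by
    rw [hη]
    have := Real.log_nonneg hT1
    positivity
  have hη1 : η ≤ (r - 1) / 64 := h1.trans (min_le_left _ _)
  have hη2 : η ≤ ε / 160 := h1.trans (min_le_right _ _)
  obtain ⟨δ, hδ⟩ : ∃ δ : ℝ, δ = T ^ (-(1 - 2 * ε)) := ⟨_, rfl⟩
  rw [← hδ] at h3
  have hδ0 : 0 < δ := by rw [hδ]; exact Real.rpow_pos_of_pos hT0 _
  have hin := fun L : ℝ => inner (L := L) hC1 hC2 hd1 hd2 (by rw [he]; linarith)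
    (show e ≤ 1 / 2 - η by rw [he]; linarith) (by rw [he]; linarith) (by positivity)
    (show ε / 100 ≤ 1 by linarith) (show 1 / 2 - η ≤ 1 by linarith) hδ0 h3 h2
  have hHδ : (T ^ (1 - ε)) ^ 2 * δ ^ 2 = T ^ (2 * ε) := by
    rw [hδ, ← mul_pow, ← Real.rpow_add hT0, ← Real.rpow_natCast, ← Real.rpow_mul hT0.le]
    congr 1
    push_cast
    ring
  rw [hHδ] at hin
  refine ⟨fun K => (hin (r * Real.log K)).1, ?_⟩
  obtain ⟨κ, hκ⟩ : ∃ κ : ℝ, κ = (2 * r / (1 + r) - 4 * ε) * (1 / r) := ⟨_, rfl⟩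
  have hKm : (T ^ (2 * r / (1 + r) - 4 * ε)) ^ (1 / r) = T ^ κ := by
    rw [← Real.rpow_mul hT0.le, hκ]
  rw [hKm]
  have hr0 : 0 < r := by linarith
  have hκ2 : κ = 2 / (1 + r) - 4 * ε / r := by
    rw [hκ]
    field_simp
  have hκ1 : κ ≤ 1 := by
    rw [hκ2]
    have g1 : 2 / (1 + r) ≤ 1 := by rw [div_le_one (by linarith)]; linarith
    have g2 : 0 ≤ 4 * ε / r := by positivity
    linarith
  have hKT : T ^ κ ≤ T := by
    calc T ^ κ ≤ T ^ (1 : ℝ) := Real.rpow_le_rpow_of_exponent_le hT1 hκ1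
      _ = T := Real.rpow_one T
  have hK0 : 0 < T ^ κ := Real.rpow_pos_of_pos hT0 _
  obtain ⟨g, hg⟩ : ∃ g : ℝ, g = (r - 1) / 2 + (ε / 100 * (1 + r) + 2 * r * η) := ⟨_, rfl⟩
  have hg0 : 0 ≤ g := by
    rw [hg]
    have : 0 ≤ ε / 100 * (1 + r) + 2 * r * η := by positivity
    linarith
  obtain ⟨E, hE⟩ : ∃ E : ℝ, E = Real.exp (-(T ^ (2 * ε) / 32)) := ⟨_, rfl⟩
  have hE0 : 0 < E := by rw [hE]; exact Real.exp_pos _
  rw [← hE] at h5 hin
  rw [← hZ2] at hin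
  have hterm : ∀ K ∈ Finset.Icc 1 ⌊T ^ κ⌋₊, dv K * (K : ℝ) ^ (-(1 / 2 - r * η)) *
      (∑' n : ℕ, if n = 0 then 0 else dv n * (n : ℝ) ^ (-(1 / 2 - η)) *
        Real.exp (-((T ^ (1 - ε)) ^ 2 * (r * Real.log K - Real.log n) ^ 2 / 4))) ≤
      4 * C1 ^ 2 * (K : ℝ) ^ (-(1 + (r - 1) / 4)) +
        (8 * C2 ^ 2 * δ * (T ^ κ) ^ g + C1 * Real.exp 1 * E * Z2 * T ^ 4) := by
    intro K hK
    obtain ⟨k1, k2⟩ := Finset.mem_Icc.1 hK
    have k3 : (1 : ℝ) ≤ K := by exact_mod_cast k1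
    have k0 : (0 : ℝ) < K := by linarith
    have k4 : (K : ℝ) ≤ T ^ κ := (Nat.le_floor_iff hK0.le).1 k2
    have k5 : (K : ℝ) ≤ T := k4.trans hKT
    have htc : (∑' n : ℕ, if n = 0 then 0 else dv n * (n : ℝ) ^ (-(1 / 2 - η)) *
        Real.exp (-((T ^ (1 - ε)) ^ 2 * (r * Real.log K - Real.log n) ^ 2 / 4))) =
        ∑' n : ℕ, dv n * (n : ℝ) ^ (-(1 / 2 - η)) *
        Real.exp (-((T ^ (1 - ε)) ^ 2 * (r * Real.log K - Real.log n) ^ 2 / 4)) := by
      refine tsum_congr fun n => ?_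
      split_ifs with h
      · rw [h]
        simp [dv]
      · rfl
    rw [htc]
    have hi := (hin (r * Real.log K)).2
    have hx : Real.exp (r * Real.log K) = (K : ℝ) ^ r := by
      rw [Real.rpow_def_of_pos k0, mul_comm]
    rw [Real.exp_add, show 2 * (r * Real.log K) = r * Real.log K + r * Real.log K by ring,
      Real.exp_add, hx, ← Real.rpow_mul k0.le, ← Real.rpow_mul k0.le] at hi
    have hdK0 : 0 ≤ dv K := Nat.cast_nonneg _
    have hdKK : dv K ≤ K := by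
      unfold dv
      exact_mod_cast Nat.card_divisors_le_self K
    refine (mul_le_mul_of_nonneg_left hi (by positivity)).trans ?_
    have t1 : dv K * (K : ℝ) ^ (-(1 / 2 - r * η)) * (4 * C1 * (K : ℝ) ^ (r * (e - (1 / 2 - η)))) ≤
        4 * C1 ^ 2 * (K : ℝ) ^ (-(1 + (r - 1) / 4)) := by
      calc dv K * (K : ℝ) ^ (-(1 / 2 - r * η)) * (4 * C1 * (K : ℝ) ^ (r * (e - (1 / 2 - η))))
          ≤ (C1 * (K : ℝ) ^ e) * (K : ℝ) ^ (-(1 / 2 - r * η)) *
            (4 * C1 * (K : ℝ) ^ (r * (e - (1 / 2 - η)))) := by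
            gcongr
            exact hd1 K k1
        _ = 4 * C1 ^ 2 * ((K : ℝ) ^ e * (K : ℝ) ^ (-(1 / 2 - r * η)) *
            (K : ℝ) ^ (r * (e - (1 / 2 - η)))) := by ring
        _ = 4 * C1 ^ 2 * (K : ℝ) ^ (e + -(1 / 2 - r * η) + r * (e - (1 / 2 - η))) := by
            rw [← Real.rpow_add k0, ← Real.rpow_add k0]
        _ ≤ _ := by
            refine mul_le_mul_of_nonneg_left (Real.rpow_le_rpow_of_exponent_le k3 ?_) (by positivity)
            rw [he]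
            nlinarith
    have t2 : dv K * (K : ℝ) ^ (-(1 / 2 - r * η)) *
        (8 * C2 * δ * (K : ℝ) ^ (r * (1 + ε / 100 - (1 / 2 - η)))) ≤
        8 * C2 ^ 2 * δ * (T ^ κ) ^ g := by
      calc dv K * (K : ℝ) ^ (-(1 / 2 - r * η)) *
          (8 * C2 * δ * (K : ℝ) ^ (r * (1 + ε / 100 - (1 / 2 - η))))
          ≤ (C2 * (K : ℝ) ^ (ε / 100)) * (K : ℝ) ^ (-(1 / 2 - r * η)) *
            (8 * C2 * δ * (K : ℝ) ^ (r * (1 + ε / 100 - (1 / 2 - η)))) := by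
            gcongr
            exact hd2 K k1
        _ = 8 * C2 ^ 2 * δ * ((K : ℝ) ^ (ε / 100) * (K : ℝ) ^ (-(1 / 2 - r * η)) *
            (K : ℝ) ^ (r * (1 + ε / 100 - (1 / 2 - η)))) := by ring
        _ = 8 * C2 ^ 2 * δ * (K : ℝ) ^ g := by
            rw [← Real.rpow_add k0, ← Real.rpow_add k0, hg]
            congr 2
            ring
        _ ≤ _ := by gcongr
    have t3 : dv K * (K : ℝ) ^ (-(1 / 2 - r * η)) *
        (C1 * (Real.exp 1 * ((K : ℝ) ^ r * (K : ℝ) ^ r) * E) * Z2) ≤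
        C1 * Real.exp 1 * E * Z2 * T ^ 4 := by
      have u1 : (K : ℝ) ^ (-(1 / 2 - r * η)) ≤ 1 := by
        refine Real.rpow_le_one_of_one_le_of_nonpos k3 ?_
        nlinarith
      have u2 : (K : ℝ) ^ r * (K : ℝ) ^ r ≤ T ^ 3 := by
        rw [← Real.rpow_add k0]
        calc (K : ℝ) ^ (r + r) ≤ (K : ℝ) ^ (3 : ℝ) :=
              Real.rpow_le_rpow_of_exponent_le k3 (by linarith)
          _ ≤ T ^ (3 : ℝ) := by gcongr
          _ = T ^ 3 := by norm_cast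
      calc dv K * (K : ℝ) ^ (-(1 / 2 - r * η)) *
          (C1 * (Real.exp 1 * ((K : ℝ) ^ r * (K : ℝ) ^ r) * E) * Z2)
          ≤ T * 1 * (C1 * (Real.exp 1 * T ^ 3 * E) * Z2) := by
            gcongr
            exact hdKK.trans k5
        _ = _ := by ring
    calc _ = dv K * (K : ℝ) ^ (-(1 / 2 - r * η)) * (4 * C1 * (K : ℝ) ^ (r * (e - (1 / 2 - η)))) +
          (dv K * (K : ℝ) ^ (-(1 / 2 - r * η)) *
            (8 * C2 * δ * (K : ℝ) ^ (r * (1 + ε / 100 - (1 / 2 - η)))) +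
          dv K * (K : ℝ) ^ (-(1 / 2 - r * η)) *
            (C1 * (Real.exp 1 * ((K : ℝ) ^ r * (K : ℝ) ^ r) * E) * Z2)) := by ring
      _ ≤ _ := add_le_add t1 (add_le_add t2 t3)
  refine (Finset.sum_le_sum hterm).trans ?_
  rw [Finset.sum_add_distrib, ← Finset.mul_sum, Finset.sum_const, nsmul_eq_mul]
  have hNle : ((Finset.Icc 1 ⌊T ^ κ⌋₊).card : ℝ) ≤ T ^ κ := by
    rw [Nat.card_Icc, Nat.add_sub_cancel]
    exact Nat.floor_le hK0.le
  have s1 : ∑ K ∈ Finset.Icc 1 ⌊T ^ κ⌋₊, (K : ℝ) ^ (-(1 + (r - 1) / 4)) ≤ Z := by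
    rw [hZ]
    refine Summable.sum_le_tsum _ (fun n _ => by positivity) ?_
    exact Real.summable_nat_rpow.2 (by linarith)
  have s2 : T ^ κ * (8 * C2 ^ 2 * δ * (T ^ κ) ^ g) ≤ 1 := by
    calc T ^ κ * (8 * C2 ^ 2 * δ * (T ^ κ) ^ g)
        = 8 * C2 ^ 2 * (T ^ κ * T ^ (-(1 - 2 * ε)) * T ^ (κ * g)) := by
          rw [hδ, ← Real.rpow_mul hT0.le]; ring
      _ = 8 * C2 ^ 2 * T ^ (κ + -(1 - 2 * ε) + κ * g) := by
          rw [← Real.rpow_add hT0, ← Real.rpow_add hT0]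
      _ ≤ 8 * C2 ^ 2 * T ^ (-ε) := by
          refine mul_le_mul_of_nonneg_left (Real.rpow_le_rpow_of_exponent_le hT1 ?_) (by positivity)
          have w1 : κ * ((1 + r) / 2) = 1 - 2 * ε - 2 * ε * (1 / r) := by
            rw [hκ2]
            field_simp
            ring
          have w2 : 2 / 3 ≤ 1 / r := by
            rw [div_le_div_iff₀ (by norm_num) hr0]
            linarith
          have w3 : 0 ≤ ε / 100 * (1 + r) + 2 * r * η := by positivity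
          have w4 : ε / 100 * (1 + r) + 2 * r * η ≤ ε / 20 := by nlinarith
          have w5 : κ * (ε / 100 * (1 + r) + 2 * r * η) ≤ ε / 20 := by
            calc κ * (ε / 100 * (1 + r) + 2 * r * η) ≤ 1 * (ε / 100 * (1 + r) + 2 * r * η) :=
                  mul_le_mul_of_nonneg_right hκ1 w3
              _ ≤ ε / 20 := by linarith
          have w6 : κ + -(1 - 2 * ε) + κ * g = κ * ((1 + r) / 2) +
              κ * (ε / 100 * (1 + r) + 2 * r * η) - (1 - 2 * ε) := by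
            rw [hg]; ring
          rw [w6, w1]
          nlinarith
      _ ≤ 1 := h4
  have s3 : T ^ κ * (C1 * Real.exp 1 * E * Z2 * T ^ 4) ≤ 1 := by
    calc T ^ κ * (C1 * Real.exp 1 * E * Z2 * T ^ 4) ≤ T * (C1 * Real.exp 1 * E * Z2 * T ^ 4) := by
          gcongr
      _ = C1 * Real.exp 1 * Z2 * (T ^ (5 : ℝ) * E) := by
          have : T ^ (5 : ℝ) = T ^ 5 := by norm_cast
          rw [this]; ring
      _ ≤ 1 := h5
  have s4 : ((Finset.Icc 1 ⌊T ^ κ⌋₊).card : ℝ) *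
      (8 * C2 ^ 2 * δ * (T ^ κ) ^ g + C1 * Real.exp 1 * E * Z2 * T ^ 4) ≤ 2 := by
    calc _ ≤ T ^ κ * (8 * C2 ^ 2 * δ * (T ^ κ) ^ g + C1 * Real.exp 1 * E * Z2 * T ^ 4) := by
          gcongr
      _ = T ^ κ * (8 * C2 ^ 2 * δ * (T ^ κ) ^ g) + T ^ κ * (C1 * Real.exp 1 * E * Z2 * T ^ 4) := by
          ring
      _ ≤ 2 := by linarith
  have s5 : 4 * C1 ^ 2 * ∑ K ∈ Finset.Icc 1 ⌊T ^ κ⌋₊, (K : ℝ) ^ (-(1 + (r - 1) / 4)) ≤
      4 * C1 ^ 2 * Z := mul_le_mul_of_nonneg_left s1 (by positivity)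
  linarith

end Pool.Agent.H63.PZ.TV
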